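import Mathlib
import Pool.Agent.Q241.MZ.Main

/-!
# Maxima of zeta derivatives versus maxima of zeta: two-sided bounds

`M l σ T` is the maximum of `|ζ^(l)(σ + it)|` over `T ≤ t ≤ 2T`.  For every `l` and every real
`σ < 1` (in particular for `0 < σ < 1`, the question) there are `K, T₀` with
`(log T)^(-l/2) M_0 ≤ K M_l` and `M_l ≤ K (log T)^(2 l) M_0` for all `T ≥ T₀`.  So Question Q1 has a
positive answer, with `a = -l/2` and `A = 2 l`.

Upper bound: an inequality of Markov type for analytic functions at the END POINT of a segment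
(the maximum may be attained at `T` or `2T`, outside of which nothing is known): if `f` is
analytic in the disc of radius `2`, bounded by `M` on `[0, 1]` and by `M e^L` in the disc, then
`|f| ≤ e^5 M` in the disc of radius `L⁻²` about `0`; proof by the substitution `z = u²` and the
maximum principle in a rectangle.  Lower bound: if `M_{l+1}` were too small, `ζ^(l)` would be
almost constant on a segment of length `√(A log T)` of the line `Re s = σ` with the maximum of
`|ζ^(l)|` at one end, hence (local three lines theorem) almost the same constant at a point of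
the line `Re s = 2`, where it is bounded; but `M_l → ∞`, by almost periodicity to the right of the
line `Re s = 1` and the same local three lines theorem.
-/

open Set

namespace Pool.Agent.Results.MP_9a1873_nt.TwoSidedBounds

/-- `M_l(σ, T)`, the maximum of `|ζ^(l)(σ + it)|` over `T ≤ t ≤ 2T` -/
noncomputable def M (l : ℕ) (σ T : ℝ) : ℝ :=
  sSup ((fun t : ℝ => ‖iteratedDeriv l riemannZeta (⟨σ, t⟩ : ℂ)‖) '' Icc T (2 * T))

theorem lower (l : ℕ) {σ : ℝ} (hσ : σ < 1) : ∃ K T0 : ℝ, 0 < K ∧ 1 < T0 ∧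
    ∀ T : ℝ, T0 ≤ T → M 0 σ T ≤ K * Real.sqrt (Real.log T) ^ l * M l σ T := by
  induction l with
  | zero => exact ⟨1, 2, one_pos, by norm_num, fun T _ => by simp⟩
  | succ l ih =>
    obtain ⟨K1, T1, hK1, hT1, h1⟩ := ih
    obtain ⟨K2, T2, hK2, hT2, h2⟩ := Q241.MZ.ratio_lower l hσ
    refine ⟨K1 * K2, max T1 T2, by positivity, lt_of_lt_of_le hT1 (le_max_left _ _), ?_⟩
    intro T hT
    have h3 := h1 T ((le_max_left _ _).trans hT)
    have h4 : M l σ T ≤ K2 * Real.sqrt (Real.log T) * M (l + 1) σ T :=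
      h2 T ((le_max_right _ _).trans hT)
    calc M 0 σ T ≤ K1 * Real.sqrt (Real.log T) ^ l * M l σ T := h3
      _ ≤ K1 * Real.sqrt (Real.log T) ^ l * (K2 * Real.sqrt (Real.log T) * M (l + 1) σ T) := by
          gcongr
      _ = _ := by ring

/-- **Q1 holds, with the exponents `a = -l/2` and `A = 2 l`, for all `σ < 1`.** -/
theorem result :
    (∀ (l : ℕ) (σ T : ℝ), 0 < T →
      IsGreatest ((fun t : ℝ => ‖iteratedDeriv l riemannZeta (⟨σ, t⟩ : ℂ)‖) '' Icc T (2 * T))
        (M l σ T)) ∧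
    (∀ (l : ℕ) (σ : ℝ), σ < 1 → ∃ K T0 : ℝ, 0 < K ∧ 1 < T0 ∧ ∀ T : ℝ, T0 ≤ T →
      0 < M 0 σ T ∧
      Real.log T ^ (-(l : ℝ) / 2) * M 0 σ T ≤ K * M l σ T ∧
      M l σ T ≤ K * (Real.log T ^ (2 * (l : ℝ)) * M 0 σ T)) := by
  refine ⟨fun l σ T hT => Q241.MZ.isGreatest_M l σ hT, ?_⟩
  intro l σ hσ
  obtain ⟨K1, T1, hK1, hT1, h1⟩ := lower l hσ
  obtain ⟨K2, T2, hK2, hT2, h2⟩ := Q241.MZ.upper l hσ
  obtain ⟨T3, hT3, h3⟩ := Q241.MZ.M_large 0 hσ 1
  refine ⟨K1 + K2, max T1 (max T2 T3), by positivity, lt_of_lt_of_le hT1 (le_max_left _ _), ?_⟩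
  intro T hT
  have e1 := h1 T ((le_max_left _ _).trans hT)
  have e2 : M l σ T ≤ K2 * Real.log T ^ (2 * l) * M 0 σ T :=
    h2 T (((le_max_left _ _).trans (le_max_right _ _)).trans hT)
  have e3 : 1 ≤ M 0 σ T := h3 T (((le_max_right _ _).trans (le_max_right _ _)).trans hT)
  have hT4 : 1 < T := lt_of_lt_of_le hT1 ((le_max_left _ _).trans hT)
  have hlog : 0 < Real.log T := Real.log_pos hT4
  have hMl : 0 ≤ M l σ T := Q241.MZ.M_nonneg (by linarith)
  refine ⟨by linarith, ?_, ?_⟩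
  · have e4 : Real.sqrt (Real.log T) ^ l = Real.log T ^ ((l : ℝ) / 2) := by
      rw [Real.sqrt_eq_rpow, ← Real.rpow_natCast, ← Real.rpow_mul hlog.le]
      congr 1
      ring
    rw [e4] at e1
    have e5 : 0 < Real.log T ^ (-(l : ℝ) / 2) := Real.rpow_pos_of_pos hlog _
    calc Real.log T ^ (-(l : ℝ) / 2) * M 0 σ T
        ≤ Real.log T ^ (-(l : ℝ) / 2) * (K1 * Real.log T ^ ((l : ℝ) / 2) * M l σ T) := by gcongr
      _ = (Real.log T ^ (-(l : ℝ) / 2) * Real.log T ^ ((l : ℝ) / 2)) * (K1 * M l σ T) := by ring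
      _ = K1 * M l σ T := by
          rw [← Real.rpow_add hlog]
          have : -(l : ℝ) / 2 + (l : ℝ) / 2 = 0 := by ring
          rw [this, Real.rpow_zero, one_mul]
      _ ≤ (K1 + K2) * M l σ T := by nlinarith
  · have e4 : Real.log T ^ (2 * (l : ℝ)) = Real.log T ^ (2 * l) := by
      rw [← Real.rpow_natCast]
      push_cast
      rfl
    rw [e4]
    have e5 : 0 ≤ Real.log T ^ (2 * l) * M 0 σ T := by positivity
    calc M l σ T ≤ K2 * (Real.log T ^ (2 * l) * M 0 σ T) := by rw [← mul_assoc]; exact e2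
      _ ≤ (K1 + K2) * (Real.log T ^ (2 * l) * M 0 σ T) := by nlinarith

end Pool.Agent.Results.MP_9a1873_nt.TwoSidedBounds
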